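import Pool.Agent.H.MP_b87388_al.B
import Pool.Agent.H.MP_b87388_al.C

namespace Pool.Agent.Results.MP_b87388_al.Yes

open CategoryTheory CategoryTheory.Abelian Set
open Pool.Agent.H.MP_70614a_al Pool.Agent.H.MP_b87388_al

universe v u

/-- global dimension of an abelian category: supremum of the projective dimensions of objects -/
noncomputable def gldim (C : Type u) [Category.{v} C] [Abelian C] : WithBot ℕ∞ :=
  ⨆ X : C, projectiveDimension X

/-- the conjugate g H g⁻¹ -/
def conj {G : Type} [Group G] (g : G) (H : Subgroup G) : Subgroup G :=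
  H.map (MulAut.conj g).toMonoidHom

theorem conj_eq {G : Type} [Group G] (g : G) (H : Subgroup G) : conj g H = cj g⁻¹ H := by
  ext x
  rw [mem_cj, inv_inv]
  constructor
  · rintro ⟨y, hy, rfl⟩
    simpa [mul_assoc] using hy
  · intro h
    exact ⟨_, h, by simp [mul_assoc]⟩

theorem conj_one {G : Type} [Group G] (H : Subgroup G) : conj 1 H = H := by
  rw [conj_eq, inv_one, cj_one]

theorem conj_mul {G : Type} [Group G] (g h : G) (H : Subgroup G) :
    conj (g * h) H = conj g (conj h H) := by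
  rw [conj_eq, conj_eq, conj_eq, mul_inv_rev, cj_mul]

theorem conj_mono {G : Type} [Group G] (g : G) {H K : Subgroup G} (h : H ≤ K) :
    conj g H ≤ conj g K := Subgroup.map_mono h

theorem conj_card {G : Type} [Group G] (g : G) (H : Subgroup G) :
    Nat.card (conj g H) = Nat.card H := Subgroup.card_map_of_injective (MulAut.conj g).injective

/-- conjugacy of subgroups -/
def conjSetoid (G : Type) [Group G] : Setoid (Subgroup G) where
  r H K := ∃ g, H = conj g K
  iseqv :=
    { refl := fun H => ⟨1, (conj_one H).symm⟩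
      symm := fun ⟨g, h⟩ => ⟨g⁻¹, by rw [h, ← conj_mul, inv_mul_cancel, conj_one]⟩
      trans := fun ⟨g, h⟩ ⟨g', h'⟩ => ⟨g * g', by rw [h, h', conj_mul]⟩ }

/-- the set of conjugacy classes of subgroups -/
def SubCl (G : Type) [Group G] : Type := Quotient (conjSetoid G)

/-- the class of H is below the class of K when H lies in a conjugate of K -/
instance (G : Type) [Group G] [Finite G] : PartialOrder (SubCl G) where
  le x y := ∃ H K g, x = Quotient.mk _ H ∧ y = Quotient.mk _ K ∧ H ≤ conj g K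
  le_refl x := by
    obtain ⟨H, rfl⟩ := Quotient.exists_rep x
    exact ⟨H, H, 1, rfl, rfl, (conj_one H).ge⟩
  le_trans := by
    rintro _ _ _ ⟨H, K, g, rfl, rfl, h⟩ ⟨K', L, g', h1, rfl, h'⟩
    obtain ⟨a, rfl⟩ := Quotient.exact h1
    exact ⟨H, L, g * (a * g'), rfl, rfl, by
      rw [conj_mul, conj_mul]; exact h.trans (conj_mono g (conj_mono a h'))⟩
  le_antisymm := by
    rintro _ _ ⟨H, K, g, rfl, rfl, h⟩ ⟨K', H', g', h1, h2, h'⟩
    obtain ⟨a, rfl⟩ := Quotient.exact h1
    obtain ⟨b, rfl⟩ := Quotient.exact h2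
    refine Quotient.sound ⟨g, Subgroup.eq_of_le_of_card_ge h ?_⟩
    rw [conj_card, conj_card, conj_card, ← conj_card g' H']
    exact Subgroup.card_le_of_le h'

instance (G : Type) [Group G] [Finite G] : Finite (SubCl G) := Quotient.finite _

noncomputable instance clDec (G : Type) [Group G] : DecidableEq (SubCl G) := Classical.decEq _

open Classical in
noncomputable instance clLF (G : Type) [Group G] [Finite G] : LocallyFiniteOrder (SubCl G) :=
  letI := Fintype.ofFinite (SubCl G)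
  Fintype.toLocallyFiniteOrder

def c (i : Fin 6) : SubCl G8 := Quotient.mk _ (rep i)

theorem c_surj (x : SubCl G8) : ∃ i, x = c i := by
  obtain ⟨H, rfl⟩ := Quotient.exists_rep x
  obtain ⟨g, i, h⟩ := classify H
  have h1 : (conjSetoid G8).r (rep i) H := ⟨g⁻¹, by rw [conj_eq, inv_inv, h]⟩
  exact ⟨i, (Quotient.sound h1).symm⟩

theorem c_le (i j : Fin 6) : c i ≤ c j ↔ cd i ∣ cd j := by
  constructor
  · rintro ⟨H, K, g, h1, h2, h⟩
    obtain ⟨a, ha⟩ := Quotient.exact h1
    obtain ⟨b, hb⟩ := Quotient.exact h2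
    rw [← card_rep, ← card_rep, ha, hb, conj_card, conj_card, ← conj_card g K]
    exact Subgroup.card_dvd_of_le h
  · intro h
    exact ⟨rep i, rep j, 1, rfl, rfl, by rw [conj_one]; exact rep_le i j h⟩

theorem c_lt (i j : Fin 6) : c i < c j ↔ cd i ∣ cd j ∧ ¬ cd j ∣ cd i := by
  rw [lt_iff_le_not_ge, c_le, c_le]

theorem c_eq (i j : Fin 6) : c i = c j ↔ cd i ∣ cd j ∧ cd j ∣ cd i := by
  rw [le_antisymm_iff, c_le, c_le]

theorem pd3 {C : Type u} [Category.{v} C] [Abelian C] (t : Thin C (SubCl G8)) (x : SubCl G8) :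
    PD t {x} 3 := by
  have h1 : ∀ i j, (∀ k, (cd k ∣ cd i ∧ ¬ cd i ∣ cd k) ↔ cd k ∣ cd j) → ∀ n, PD t {c i} (n + 2) := by
    intro i j h n
    refine PD_sing t _ _ ?_
    have : Iio (c i) = Iic (c j) := by
      ext y
      obtain ⟨k, rfl⟩ := c_surj y
      rw [mem_Iio, mem_Iic, c_lt, c_le, h]
    rw [this]
    exact PD_Iic t _ n
  obtain ⟨i, rfl⟩ := c_surj x
  have h2 : ∀ i : Fin 6, i = 0 ∨ i = 1 ∨ i = 2 ∨ i = 3 ∨ i = 4 ∨ i = 5 := by decide
  rcases h2 i with rfl | rfl | rfl | rfl | rfl | rfl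
  · refine PD_sing t _ _ ?_
    have : Iio (c 0) = ∅ := by
      ext y
      obtain ⟨k, rfl⟩ := c_surj y
      rw [mem_Iio, c_lt, mem_empty_iff_false]
      revert k
      decide
    rw [this]
    exact PD_empty t _
  · exact h1 1 0 (by decide) 1
  · exact h1 2 1 (by decide) 1
  · exact h1 3 2 (by decide) 1
  · exact h1 4 0 (by decide) 1
  · refine PD_sing t _ _ (PD_mid t (U := Iio (c 5)) (U' := Iic (c 3))
      ⟨fun y hy => lt_of_le_of_lt hy ((c_lt _ _).2 (by decide)), fun _ _ _ hy h => le_trans h hy⟩ 2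
      (PD_Iic t _ 1) ?_)
    have : Iio (c 5) \ Iic (c 3) = {c 4} := by
      ext y
      obtain ⟨k, rfl⟩ := c_surj y
      rw [mem_sdiff, mem_Iio, mem_Iic, mem_singleton_iff, c_lt, c_le, c_eq]
      revert k
      decide
    rw [this]
    exact h1 4 0 (by decide) 0

def Anti (a H : Finset (Fin 3)) : Prop :=
  ∀ L L' : Finset (Fin 3), (∅ ≤ L ∧ L ≤ L' ∧ L' < H ∧ ¬ L ⊔ a < H) → L' ≤ L

instance (a H) : Decidable (Anti a H) := by unfold Anti; infer_instance

theorem Anti.out {a H} (h : Anti a H) (L L' : Finset (Fin 3)) (h1 : ∅ ≤ L) (h2 : L ≤ L')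
    (h3 : L' < H) (h4 : ¬ L ⊔ a < H) : L' ≤ L := h L L' ⟨h1, h2, h3, h4⟩

theorem lower : ¬ HasProjectiveDimensionLT (dat.XF {Finset.univ} ordConnected_singleton) 3 := by
  intro h
  let _ := HasExt.standard (Coef G8)
  let d : VD (Finset (Fin 3)) ∅ :=
    Thin.vd.{1} dat.thin (dat.XF {∅} ordConnected_singleton) ∅ fun x hx f => by
      refine dat.hom0 x ⟨fun a b => Dat.X_ext fun g hg => ?_⟩ f
      exfalso
      obtain ⟨y, hy, hy1⟩ := eI_ne x hx
      have h1 : cj g (eI x) ≤ eI ∅ := (dat.adj _ ∅ hg.1).1 (le_of_eq hg.2)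
      have h2 : g⁻¹ * y * g⁻¹⁻¹ ∈ cj g (eI x) := by rw [mem_cj]; simpa [mul_assoc] using hy
      have h3 := h1 h2
      rw [eI_bot, Subgroup.mem_bot, conj_eq_one_iff] at h3
      exact hy1 (by rw [h3]; rfl)
  have h1 : d.V {Finset.univ} 3 := fun _ e =>
    Ext.eq_zero_of_hasProjectiveDimensionLT (X := dat.XF {Finset.univ} ordConnected_singleton) e 3
      le_rfl
  have h2 := d.down {2} _ {0, 1} (by decide) (by decide) (by decide) (by decide)
    (Anti.out (by decide)) 2 h1
  have h3 := d.down {1} _ {0} (by decide) (by decide) (by decide) (by decide)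
    (Anti.out (by decide)) 1 h2
  have h4 := d.down {0} _ ∅ (by decide) (by decide) (by decide) (by decide)
    (Anti.out (by decide)) 0 h3
  have h5 := (Ext.mk₀_eq_zero_iff _).1 (h4 ordConnected_singleton (Ext.mk₀ (𝟙 _)))
  let f : dat.X {∅} ⊥ := ⟨fun _ => 1, fun _ _ _ => rfl, fun g hg => (hg (by
    have h6 : cj g (⊥ : Subgroup G8) ≤ ⊥ := fun x hx => by
      rwa [mem_cj, Subgroup.mem_bot, conj_eq_one_iff] at hx
    exact ⟨h6.trans bot_le, le_bot_iff.1 ((dat.adj _ ∅ (h6.trans bot_le)).2 (h6.trans bot_le))⟩)).elim⟩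
  have h7 : f = 0 := congrArg (fun φ : dat.XF {∅} ordConnected_singleton ⟶
    dat.XF {∅} ordConnected_singleton => (φ.app (Opposite.op ⟨⊥⟩)).hom f) h5
  exact one_ne_zero (congrFun (congrArg Subtype.val h7) 1)

theorem result : ∃ (G : Type) (_ : Group G) (_ : Finite G),
    gldim (ModuleCat.{0} (IncidenceAlgebra ℚ (SubCl G))) ≠ gldim (Coef G) := by
  let _ := Fintype.ofFinite (SubCl G8)
  refine ⟨G8, inferInstance, inferInstance, ne_of_lt (lt_of_le_of_lt (b := ((2 : ℕ) : WithBot ℕ∞))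
    (iSup_le fun M => ?_) (lt_of_lt_of_le (b := ((3 : ℕ) : WithBot ℕ∞)) (by norm_cast)
      (le_trans ?_ (le_iSup _ (dat.XF {Finset.univ} ordConnected_singleton)))))⟩
  · rw [projectiveDimension_le_iff]
    exact all_pd' 3 (fun W _ _ x => pd3 _ x) M
  · rw [projectiveDimension_ge_iff]
    exact lower

end Pool.Agent.Results.MP_b87388_al.Yes
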